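import Pool.Agent.Helper68.QC.St1

open Pool.Agent.Helper68.QC
open MeasureTheory Set Filter Topology Complex
open scoped ContDiff ComplexConjugate ENNReal

namespace Pool.Agent.Helper34.QC

/-- A smooth cutoff of the identity. -/
lemma exists_chi (R : ℝ) (hR : 0 < R) : ∃ χ : ℂ → ℂ, ContDiff ℝ ∞ χ ∧
    (∀ z, ‖z‖ ≤ R + 1 → χ z = z) ∧
    (∀ z, z ∉ Metric.closedBall (0 : ℂ) (R + 2) → fderiv ℝ χ z = 0) ∧
    ∃ C : ℝ, 0 ≤ C ∧ ∀ z, ‖fderiv ℝ χ z‖ ≤ C := by
  let b : ContDiffBump (0 : ℂ) := ⟨R + 1, R + 2, by linarith, by linarith⟩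
  have hb : ContDiff ℝ ∞ (fun z => ((b z : ℝ) : ℂ)) :=
    Complex.ofRealCLM.contDiff.comp b.contDiff
  have hs : ContDiff ℝ ∞ (fun z => ((b z : ℝ) : ℂ) * z) := hb.mul contDiff_id
  have hc : HasCompactSupport (fun z => ((b z : ℝ) : ℂ) * z) := by
    refine HasCompactSupport.mul_right ?_
    exact b.hasCompactSupport.comp_left (g := fun x : ℝ => (x : ℂ)) (by simp)
  have hsup : ∀ z, z ∉ Metric.closedBall (0 : ℂ) (R + 2) →
      fderiv ℝ (fun z => ((b z : ℝ) : ℂ) * z) z = 0 := by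
    intro z hz
    have h1 : z ∉ tsupport (fun z => ((b z : ℝ) : ℂ) * z) := by
      intro h
      apply hz
      have h2 : tsupport (fun z => ((b z : ℝ) : ℂ) * z) ⊆ tsupport b := by
        refine closure_mono ?_
        intro x hx
        simp only [Function.mem_support, ne_eq, mul_eq_zero, not_or] at hx ⊢
        intro h0
        exact hx.1 (by rw [h0]; simp)
      have h3 := h2 h
      rw [b.tsupport_eq] at h3
      exact h3
    have h4 : z ∉ tsupport (fderiv ℝ (fun z => ((b z : ℝ) : ℂ) * z)) :=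
      fun h2 => h1 (tsupport_fderiv_subset ℝ h2)
    exact image_eq_zero_of_notMem_tsupport h4
  obtain ⟨C, hC⟩ := (hc.fderiv (𝕜 := ℝ)).exists_bound_of_continuous
    (hs.continuous_fderiv (by simp))
  refine ⟨fun z => ((b z : ℝ) : ℂ) * z, hs, ?_, hsup, C, ?_, hC⟩
  · intro z hz
    have : b z = 1 := b.one_of_mem_closedBall (by simpa using hz)
    simp [this]
  · exact (norm_nonneg _).trans (hC 0)

lemma norm_sq_le_det {k : ℝ} (hk : k < 1) {v : ℂ → ℂ} (hv : QS k v) (z : ℂ) :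
    ‖fderiv ℝ v z‖ ^ 2 ≤ (1 + k) / (1 - k) * (fderiv ℝ v z).det := by
  rw [det_fderiv]
  have h1 := norm_fderiv_le v z
  have h2 := hv.le z
  have h3 : 0 ≤ ‖dz v z‖ := norm_nonneg _
  have h4 : 0 ≤ ‖dzb v z‖ := norm_nonneg _
  have h5 : ‖fderiv ℝ v z‖ ^ 2 ≤ (‖dz v z‖ + ‖dzb v z‖) ^ 2 :=
    pow_le_pow_left₀ (norm_nonneg _) h1 2
  refine h5.trans ?_
  have h6 : 0 < 1 - k := by linarith
  rw [div_mul_eq_mul_div, le_div_iff₀ h6]
  nlinarith [mul_nonneg (add_nonneg h3 h4) (sub_nonneg.2 h2)]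

lemma energy {k : ℝ} (hk0 : 0 ≤ k) (hk : k < 1) (v : ℂ ≃ₜ ℂ) (hv : QS k v) (B : Set ℂ)
    (hB : IsCompact B) (χ : ℂ → ℂ) (hχ : ContDiff ℝ ∞ χ) (C : ℝ)
    (hC : ∀ z, ‖fderiv ℝ χ z‖ ≤ C)
    (hz : ∀ z, z ∉ B → fderiv ℝ χ z = 0) (A : Set ℂ) :
    ∫ z in A, ‖fderiv ℝ (fun x => χ (v x)) z‖ ^ 2 ≤
      C ^ 2 * ((1 + k) / (1 - k)) * (volume B).toReal := by
  have hK : 0 ≤ (1 + k) / (1 - k) := div_nonneg (by linarith) (by linarith)
  have hdet0 : ∀ z, 0 ≤ (fderiv ℝ v z).det := by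
    intro z
    rw [det_fderiv]
    have h2 := hv.le z
    have h3 : 0 ≤ ‖dz v z‖ := norm_nonneg _
    have h4 : 0 ≤ ‖dzb v z‖ := norm_nonneg _
    have h5 : ‖dzb v z‖ ≤ ‖dz v z‖ := by nlinarith
    nlinarith
  have hdc : Continuous fun z => (fderiv ℝ v z).det := by
    have : (fun z => (fderiv ℝ v z).det) = fun z => ‖dz v z‖ ^ 2 - ‖dzb v z‖ ^ 2 := by
      ext z
      exact det_fderiv _ _
    rw [this]
    exact ((continuous_dz hv.smooth).norm.pow 2).sub ((continuous_dzb hv.smooth).norm.pow 2)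
  have hpre : IsCompact (v ⁻¹' B) := by
    rw [← Homeomorph.isCompact_image v, v.image_preimage]
    exact hB
  have hmS : MeasurableSet (v ⁻¹' B) := hpre.measurableSet
  set F : ℂ → ℝ := fun z => C ^ 2 * ((1 + k) / (1 - k)) *
    (v ⁻¹' B).indicator (fun z => (fderiv ℝ v z).det) z with hF
  have hFint : Integrable F := by
    refine Integrable.const_mul ?_ _
    rw [integrable_indicator_iff hmS]
    exact hdc.continuousOn.integrableOn_compact hpre
  have hF0 : ∀ z, 0 ≤ F z := by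
    intro z
    refine mul_nonneg (mul_nonneg (sq_nonneg _) hK) ?_
    exact indicator_nonneg (fun z _ => hdet0 z) z
  have hle : ∀ z, ‖fderiv ℝ (fun x => χ (v x)) z‖ ^ 2 ≤ F z := by
    intro z
    have hd : fderiv ℝ (fun x => χ (v x)) z = (fderiv ℝ χ (v z)).comp (fderiv ℝ v z) := by
      exact fderiv_comp z (hχ.differentiable (by simp) _) (hv.smooth.differentiable (by simp) _)
    by_cases hzB : v z ∈ B
    · have h1 : ‖fderiv ℝ (fun x => χ (v x)) z‖ ≤ C * ‖fderiv ℝ v z‖ := by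
        rw [hd]
        refine (ContinuousLinearMap.opNorm_comp_le _ _).trans ?_
        exact mul_le_mul_of_nonneg_right (hC _) (norm_nonneg _)
      have h2 := pow_le_pow_left₀ (norm_nonneg _) h1 2
      refine h2.trans ?_
      rw [mul_pow]
      have h3 : F z = C ^ 2 * ((1 + k) / (1 - k)) * (fderiv ℝ v z).det := by
        rw [hF]
        simp only
        rw [indicator_of_mem (show z ∈ v ⁻¹' B from hzB)]
      rw [h3, mul_assoc]
      exact mul_le_mul_of_nonneg_left (norm_sq_le_det hk hv z) (sq_nonneg _)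
    · have h1 : fderiv ℝ (fun x => χ (v x)) z = 0 := by
        rw [hd, hz _ hzB]
        simp
      rw [h1]
      simpa using hF0 z
  have hcv : ∫ z in v ⁻¹' B, (fderiv ℝ v z).det = (volume B).toReal := by
    have h1 := integral_image_eq_integral_abs_det_fderiv_smul volume hmS
      (f := v) (f' := fun z => fderiv ℝ v z)
      (fun z _ => (hv.smooth.differentiable (by simp) z).hasFDerivAt.hasFDerivWithinAt)
      v.injective.injOn (fun _ => (1 : ℝ))
    rw [v.image_preimage] at h1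
    simp only [smul_eq_mul, mul_one, integral_const, MeasurableSet.univ, measureReal_restrict_apply,
      univ_inter] at h1
    rw [← Measure.real, h1]
    refine integral_congr_ae (ae_of_all _ fun z => ?_)
    simp only
    rw [abs_of_nonneg (hdet0 z)]
  calc ∫ z in A, ‖fderiv ℝ (fun x => χ (v x)) z‖ ^ 2
      ≤ ∫ z in A, F z := by
        refine integral_mono_of_nonneg (ae_of_all _ fun z => by positivity) hFint.integrableOn
          (ae_of_all _ hle)
    _ ≤ ∫ z, F z := setIntegral_le_integral hFint (ae_of_all _ hF0)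
    _ = C ^ 2 * ((1 + k) / (1 - k)) * (volume B).toReal := by
        rw [hF, integral_const_mul, integral_indicator hmS, hcv]

theorem pGRW (hQIN : StQIN) (hLEN : StLEN) (hMON : StMON) :
    Pool.Agent.Helper68.QC.StGRW := by
  intro k hk0 hk R₀
  set R : ℝ := max R₀ 1 with hRdef
  have hR1 : 1 ≤ R := le_max_right _ _
  have hR0 : R₀ ≤ R := le_max_left _ _
  obtain ⟨χ, hχ, hχid, hχsup, C, hC0, hC⟩ := exists_chi R (by linarith)
  set E : ℝ := C ^ 2 * ((1 + k) / (1 - k)) *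
    (volume (Metric.closedBall (0 : ℂ) (R + 2))).toReal with hE
  have hK : 0 ≤ (1 + k) / (1 - k) := div_nonneg (by linarith) (by linarith)
  have hE0 : 0 ≤ E := mul_nonneg (mul_nonneg (sq_nonneg _) hK) ENNReal.toReal_nonneg
  refine ⟨Real.exp (8 * Real.pi * E), fun w hw hw0 hw1 z₀ hz₀ => ?_⟩
  have hz₀R : ‖z₀‖ ≤ R := hz₀.trans hR0
  have hexp : (1 : ℝ) ≤ Real.exp (8 * Real.pi * E) := by
    rw [Real.one_le_exp_iff]
    have := Real.pi_pos
    positivity
  rcases le_or_gt ‖w z₀‖ 1 with hT | hT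
  · exact hT.trans hexp
  obtain ⟨W, hW, hWS⟩ := hQIN k hk w hw
  have hWw : W = w := Homeomorph.ext hW
  rw [hWw] at hWS
  set v : ℂ ≃ₜ ℂ := w.symm with hv
  have hv0 : v 0 = 0 := by
    rw [hv, Homeomorph.symm_apply_eq]
    exact hw0.symm
  have hv1 : v 1 = 1 := by
    rw [hv, Homeomorph.symm_apply_eq]
    exact hw1.symm
  have hvw : ∀ x, v (w x) = x := fun x => w.symm_apply_apply x
  have hwv : ∀ x, w (v x) = x := fun x => w.apply_symm_apply x
  have hg : ContDiff ℝ 1 (fun x => χ (v x)) := (hχ.comp hWS.smooth).of_le (by simp)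
  obtain ⟨s, hs, hlen⟩ := hLEN _ hg 0 1 ‖w z₀‖ one_pos hT
  have hs1 : 1 < s := hs.1
  have hsT : s < ‖w z₀‖ := hs.2
  have hs0 : s ≠ 0 := by linarith
  have hVo : IsOpen (v '' Metric.ball (0 : ℂ) s) := v.isOpenMap _ Metric.isOpen_ball
  have hVb : Bornology.IsBounded (v '' Metric.ball (0 : ℂ) s) := by
    refine (((isCompact_closedBall (0 : ℂ) s).image v.continuous).isBounded).subset ?_
    exact image_mono Metric.ball_subset_closedBall
  have hfr : frontier (v '' Metric.ball (0 : ℂ) s) = v '' Metric.sphere (0 : ℂ) s := by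
    rw [← v.image_frontier, frontier_ball (0 : ℂ) hs0]
  have h0V : (0 : ℂ) ∈ v '' Metric.ball (0 : ℂ) s :=
    ⟨0, by simp; linarith, hv0⟩
  have h1V : (1 : ℂ) ∈ v '' Metric.ball (0 : ℂ) s :=
    ⟨1, by simp; linarith, hv1⟩
  -- (i)
  obtain ⟨P, hPR, hPs⟩ : ∃ P ∈ Metric.closedBall (0 : ℂ) R, ‖w P‖ = s := by
    have h1 := ((convex_closedBall (0 : ℂ) R).isPreconnected).intermediate_value
      (a := 0) (b := z₀) (by simp; linarith) (by simpa using hz₀R) (f := fun x => ‖w x‖)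
      (w.continuous.norm.continuousOn)
    have h2 : s ∈ Icc (‖w 0‖) (‖w z₀‖) := by
      refine ⟨?_, hsT.le⟩
      rw [hw0]
      simp
      linarith
    obtain ⟨x, hx, hx2⟩ := h1 h2
    exact ⟨x, hx, hx2⟩
  have hPf : P ∈ frontier (v '' Metric.ball (0 : ℂ) s) := by
    rw [hfr]
    exact ⟨w P, by simpa using hPs, hvw P⟩
  have hPR' : ‖P‖ ≤ R := by simpa using hPR
  -- (ii)
  obtain ⟨P', hP', Q', hQ', hPQ⟩ := hMON _ hVo hVb 0 h0V 1 h1V zero_ne_one
  have hPQ1 : 1 ≤ ‖P' - Q'‖ := by simpa using hPQ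
  obtain ⟨Q, hQf, hQ⟩ : ∃ Q ∈ frontier (v '' Metric.ball (0 : ℂ) s), 1 / 2 ≤ ‖P - Q‖ := by
    by_contra hcon
    push Not at hcon
    have h1 := hcon P' hP'
    have h2 := hcon Q' hQ'
    have h3 : ‖P' - Q'‖ ≤ ‖P - P'‖ + ‖P - Q'‖ := by
      have : P' - Q' = (P - Q') - (P - P') := by ring
      rw [this]
      refine (norm_sub_le _ _).trans ?_
      linarith
    linarith
  -- (iii)
  rw [hfr] at hPf hQf
  have hconn : IsPreconnected (v '' Metric.sphere (0 : ℂ) s) := by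
    refine IsPreconnected.image ?_ _ v.continuous.continuousOn
    refine isPreconnected_sphere ?_ _ _
    rw [Complex.rank_real_complex]
    norm_num
  obtain ⟨Q'', hQ''f, hQ''⟩ : ∃ x ∈ v '' Metric.sphere (0 : ℂ) s, ‖P - x‖ = 1 / 2 := by
    have h1 := hconn.intermediate_value hPf hQf (f := fun x => ‖P - x‖)
      (by fun_prop)
    have h2 : (1 / 2 : ℝ) ∈ Icc (‖P - P‖) (‖P - Q‖) := by
      refine ⟨?_, hQ⟩
      simp
    obtain ⟨x, hx, hx2⟩ := h1 h2
    exact ⟨x, hx, hx2⟩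
  have hQ''R : ‖Q''‖ ≤ R + 1 := by
    have : Q'' = P - (P - Q'') := by ring
    rw [this]
    refine (norm_sub_le _ _).trans ?_
    rw [hQ'']
    linarith
  have hwP : w P ∈ Metric.sphere (0 : ℂ) s := by
    obtain ⟨x, hx, hxP⟩ := hPf
    rw [← hxP, hwv]
    exact hx
  have hwQ : w Q'' ∈ Metric.sphere (0 : ℂ) s := by
    obtain ⟨x, hx, hxP⟩ := hQ''f
    rw [← hxP, hwv]
    exact hx
  have hL := hlen _ hwP _ hwQ
  simp only [hvw] at hL
  rw [hχid P (by linarith), hχid Q'' hQ''R, hQ''] at hL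
  have hen := energy hk0 hk v hWS (Metric.closedBall (0 : ℂ) (R + 2))
    (isCompact_closedBall _ _) χ hχ C hC hχsup
    {z : ℂ | 1 < ‖z - 0‖ ∧ ‖z - 0‖ < ‖w z₀‖}
  rw [← hE] at hen
  have hlog : Real.log ‖w z₀‖ ≤ 8 * Real.pi * E := by
    have h1 : (1 / 2 : ℝ) ^ 2 * Real.log (‖w z₀‖ / 1) ≤ 2 * Real.pi * E := by
      refine hL.trans ?_
      exact mul_le_mul_of_nonneg_left hen (by have := Real.pi_pos; positivity)
    rw [div_one] at h1
    linarith
  have hpos : 0 < ‖w z₀‖ := by linarith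
  exact (Real.log_le_iff_le_exp hpos).1 hlog

end Pool.Agent.Helper34.QC
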