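import Pool.Agent.Helper68.QC.St1

open Pool.Agent.Helper68.QC
open MeasureTheory Set Filter Topology Complex
open scoped ContDiff ComplexConjugate ENNReal

namespace Pool.Agent.Helper34.QC

lemma mod_norm_sq_le {k : ℝ} (hk : k < 1) {v : ℂ → ℂ} (hv : QS k v) (z : ℂ) :
    ‖fderiv ℝ v z‖ ^ 2 ≤ (1 + k) / (1 - k) * (fderiv ℝ v z).det := by
  rw [det_fderiv]
  have h1 := norm_fderiv_le v z
  have h2 := hv.le z
  have h3 : 0 ≤ ‖dz v z‖ := norm_nonneg _
  have h4 : 0 ≤ ‖dzb v z‖ := norm_nonneg _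
  have h5 : ‖fderiv ℝ v z‖ ^ 2 ≤ (‖dz v z‖ + ‖dzb v z‖) ^ 2 :=
    pow_le_pow_left₀ (norm_nonneg _) h1 2
  refine h5.trans ?_
  have h6 : 0 < 1 - k := by linarith
  rw [div_mul_eq_mul_div, le_div_iff₀ h6]
  nlinarith [mul_nonneg (add_nonneg h3 h4) (sub_nonneg.2 h2)]

lemma mod_energy {k : ℝ} (hk0 : 0 ≤ k) (hk : k < 1) (w : ℂ ≃ₜ ℂ) (hw : QS k w)
    (c : ℂ) (ρ : ℝ) (A : Set ℂ) (hA : A ⊆ Metric.ball c ρ) :
    ∫ z in A, ‖fderiv ℝ w z‖ ^ 2 ≤
      (1 + k) / (1 - k) * (volume (w '' Metric.ball c ρ)).toReal := by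
  have hK : 0 ≤ (1 + k) / (1 - k) := div_nonneg (by linarith) (by linarith)
  have hdet0 : ∀ z, 0 ≤ (fderiv ℝ w z).det := by
    intro z
    rw [det_fderiv]
    have h2 := hw.le z
    have h3 : 0 ≤ ‖dz w z‖ := norm_nonneg _
    have h4 : 0 ≤ ‖dzb w z‖ := norm_nonneg _
    have h5 : ‖dzb w z‖ ≤ ‖dz w z‖ := by nlinarith
    nlinarith
  have hdc : Continuous fun z => (fderiv ℝ w z).det := by
    have : (fun z => (fderiv ℝ w z).det) = fun z => ‖dz w z‖ ^ 2 - ‖dzb w z‖ ^ 2 := by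
      ext z
      exact det_fderiv _ _
    rw [this]
    exact ((continuous_dz hw.smooth).norm.pow 2).sub ((continuous_dzb hw.smooth).norm.pow 2)
  have hint : IntegrableOn (fun z => (fderiv ℝ w z).det) (Metric.ball c ρ) :=
    (hdc.continuousOn.integrableOn_compact (isCompact_closedBall c ρ)).mono_set
      Metric.ball_subset_closedBall
  have hcv : ∫ z in Metric.ball c ρ, (fderiv ℝ w z).det =
      (volume (w '' Metric.ball c ρ)).toReal := by
    have h1 := integral_image_eq_integral_abs_det_fderiv_smul volume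
      (measurableSet_ball (x := c) (ε := ρ))
      (f := w) (f' := fun z => fderiv ℝ w z)
      (fun z _ => (hw.smooth.differentiable (by simp) z).hasFDerivAt.hasFDerivWithinAt)
      w.injective.injOn (fun _ => (1 : ℝ))
    simp only [smul_eq_mul, mul_one, integral_const, MeasurableSet.univ, measureReal_restrict_apply,
      univ_inter] at h1
    rw [← Measure.real, h1]
    refine integral_congr_ae (ae_of_all _ fun z => ?_)
    simp only
    rw [abs_of_nonneg (hdet0 z)]
  calc ∫ z in A, ‖fderiv ℝ w z‖ ^ 2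
      ≤ ∫ z in A, (1 + k) / (1 - k) * (fderiv ℝ w z).det := by
        refine integral_mono_of_nonneg (ae_of_all _ fun z => by positivity)
          ((hint.mono_set hA).const_mul _) (ae_of_all _ fun z => mod_norm_sq_le hk hw z)
    _ = (1 + k) / (1 - k) * ∫ z in A, (fderiv ℝ w z).det := integral_const_mul _ _
    _ ≤ (1 + k) / (1 - k) * ∫ z in Metric.ball c ρ, (fderiv ℝ w z).det := by
        refine mul_le_mul_of_nonneg_left ?_ hK
        exact setIntegral_mono_set hint (ae_of_all _ hdet0) (Eventually.of_forall hA)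
    _ = _ := by rw [hcv]

theorem pMOD (hLEN : StLEN) (hMON : StMON) :
    Pool.Agent.Helper68.QC.StMOD := by
  intro k hk0 hk w hw c r ρ hr hρ p hp q hq
  rcases eq_or_ne p q with rfl | hpq
  · have hK : 0 ≤ (1 + k) / (1 - k) := div_nonneg (by linarith) (by linarith)
    have := Real.pi_pos
    simp only [sub_self, norm_zero, ne_eq, OfNat.ofNat_ne_zero, not_false_eq_true, zero_pow,
      zero_mul]
    exact mul_nonneg (mul_nonneg (by positivity) hK) ENNReal.toReal_nonneg
  obtain ⟨s, hs, hlen⟩ := hLEN w (hw.smooth.of_le (by simp)) c r ρ hr hρ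
  have hrs : r < s := hs.1
  have hsρ : s < ρ := hs.2
  have hs0 : s ≠ 0 := by linarith
  have hVo : IsOpen (w '' Metric.ball c s) := w.isOpenMap _ Metric.isOpen_ball
  have hVb : Bornology.IsBounded (w '' Metric.ball c s) := by
    refine (((isCompact_closedBall c s).image w.continuous).isBounded).subset ?_
    exact image_mono Metric.ball_subset_closedBall
  have hfr : frontier (w '' Metric.ball c s) = w '' Metric.sphere c s := by
    rw [← w.image_frontier, frontier_ball c hs0]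
  have hpV : w p ∈ w '' Metric.ball c s := by
    refine ⟨p, ?_, rfl⟩
    rw [Metric.mem_closedBall] at hp
    rw [Metric.mem_ball]
    linarith
  have hqV : w q ∈ w '' Metric.ball c s := by
    refine ⟨q, ?_, rfl⟩
    rw [Metric.mem_closedBall] at hq
    rw [Metric.mem_ball]
    linarith
  obtain ⟨P', hP', Q', hQ', hPQ⟩ := hMON _ hVo hVb _ hpV _ hqV (w.injective.ne hpq)
  rw [hfr] at hP' hQ'
  obtain ⟨p', hp', rfl⟩ := hP'
  obtain ⟨q', hq', rfl⟩ := hQ'
  have hL := hlen p' hp' q' hq'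
  have hlog : 0 ≤ Real.log (ρ / r) := by
    refine Real.log_nonneg ?_
    rw [le_div_iff₀ hr]
    linarith
  have hsub : {z : ℂ | r < ‖z - c‖ ∧ ‖z - c‖ < ρ} ⊆ Metric.ball c ρ := by
    intro z hz
    rw [Metric.mem_ball, dist_eq_norm]
    exact hz.2
  have hen := mod_energy hk0 hk w hw c ρ _ hsub
  calc ‖w p - w q‖ ^ 2 * Real.log (ρ / r) ≤ ‖w p' - w q'‖ ^ 2 * Real.log (ρ / r) :=
        mul_le_mul_of_nonneg_right (pow_le_pow_left₀ (norm_nonneg _) hPQ 2) hlog
    _ ≤ 2 * Real.pi * ∫ z in {z : ℂ | r < ‖z - c‖ ∧ ‖z - c‖ < ρ}, ‖fderiv ℝ w z‖ ^ 2 := hL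
    _ ≤ 2 * Real.pi * ((1 + k) / (1 - k) * (volume (w '' Metric.ball c ρ)).toReal) :=
        mul_le_mul_of_nonneg_left hen (by have := Real.pi_pos; positivity)
    _ = _ := by ring

end Pool.Agent.Helper34.QC
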